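import Pool.Agent.AgeTop.Main

/-!
# MP_87e96d_pr: the cluster size law determines the age distribution up to oscillation at the maximal age

`Pool.Agent.Age.q π k s` is the probability that the age-driven branching tree with a root of age `s`
has exactly `k` vertices (branching recursion), and `Pool.Agent.Age.v π k = ∫ q π k s dπ(s)`.
`Pool.Agent.Age.N π t = ∫_{u > t} exp (-∫ min u y dπ(y)) dπ(u)`, and
`Pool.Agent.Age.LeftAnalyticAt F x` means that the function `F` agrees on some interval `(x - δ, x)`
with a function which is real analytic at `x`.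
-/

set_option autoImplicit false

namespace Pool.Agent.Results.MP_87e96d_pr.TopGerm

open MeasureTheory

/-- Let `π ≠ π'` be Borel probability measures on `[0, ∞)` of bounded support with the same cluster
size law. Then they have the same largest age `S > 0` (the maximum of the support), the difference
`N π - N π'` takes positive and negative values in every interval `(S - ε, S)`, and the functions
`t ↦ π(t,∞)` and `t ↦ π'(t,∞)` are not both left analytic at `S`. So the map from `π` to its
cluster size law is injective on the class of all measures of bounded support whose tail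
`t ↦ π(t,∞)` is left analytic at the maximum of the support (with no condition below it). -/
theorem result (π π' : Measure ℝ) [IsProbabilityMeasure π] [IsProbabilityMeasure π']
    (h0 : π (Set.Iio 0) = 0) (h0' : π' (Set.Iio 0) = 0) (R : ℝ) (hR : π (Set.Ioi R) = 0)
    (hR' : π' (Set.Ioi R) = 0) (h : ∀ k, Age.v π k = Age.v π' k) (hne : π ≠ π') :
    ∃ S > 0, π (Set.Ioi S) = 0 ∧ π' (Set.Ioi S) = 0 ∧
      (∀ s < S, 0 < π (Set.Ioi s)) ∧ (∀ s < S, 0 < π' (Set.Ioi s)) ∧
      ¬ (Age.LeftAnalyticAt (fun t => π.real (Set.Ioi t)) S ∧
        Age.LeftAnalyticAt (fun t => π'.real (Set.Ioi t)) S) ∧ ∀ ε > 0,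
        (∃ t, S - ε < t ∧ t < S ∧ Age.N π t < Age.N π' t) ∧
          ∃ t, S - ε < t ∧ t < S ∧ Age.N π' t < Age.N π t :=
  Age.main_top π π' h0 h0' R hR hR' h hne

end Pool.Agent.Results.MP_87e96d_pr.TopGerm
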